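import Pool.Agent.Run7.h245.DI.Iface
import Pool.Agent.N614.PF.Chi

/-!
# Project DI (helper245), piece CHIN (helper824): a distinguished pair gives a distinguished vector
-/

set_option autoImplicit false
set_option linter.all false

open Polynomial Matrix NumberField

namespace Run7.h824.DI

open Pool.Agent.N783.PF
open Pool.Agent.Run7.h245.SR
open Pool.Agent.Run7.h245.DI
open Pool.Agent.N783.PQ (chp form Dist)
open Pool.Agent.N352.PJ (Mt Jm)
open Pool.Agent.N614.PF (charpoly_smul findim charpoly_mulMatrix mF_mul mF_det mF_adj mF_pow gram_mul gram_op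
  det_eq form_eq)

/-- **CHIN** -/
theorem chin : S_CHIN := by
  intro g F L _ _ _ _ _ f θ hG m₀ α Λ e htr hα hΛ heΛ he A B hl 𝔮 h𝔮 h𝔮0 hδ hdist
  obtain ⟨ξ, hξ⟩ := hdist
  have hfd := findim hG
  obtain ⟨b, hb⟩ : ∃ b : Module.Basis (Fin (2 * g + 1)) F L, ∀ i, b i = e i := by
    refine ⟨basisOfLinearIndependentOfCardEqFinrank he (by rw [hG.rank, Fintype.card_fin]),
      fun i => ?_⟩
    rw [coe_basisOfLinearIndependentOfCardEqFinrank]
  have hinj : Function.Injective (algebraMap (𝓞 F) F) := RingOfIntegers.coe_injective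
  have hA0 : A.det ≠ 0 := by
    intro h0
    rw [h0] at hδ
    exact hδ 𝔮.zero_mem
  have hAF : ((A.det : 𝓞 F) : F) ≠ 0 := by
    intro h0
    exact hA0 (hinj (h0.trans (map_zero _).symm))
  have hdF : IsUnit (mF A).det := by
    rw [mF_det]
    exact hAF.isUnit
  have hop := gram_op hl b hb
  have hC : mF (A.adjugate * B) = ((A.det : 𝓞 F) : F) • Algebra.leftMulMatrix b θ := by
    rw [mF_mul, mF_adj, ← hop, ← Matrix.mul_assoc, Matrix.adjugate_mul, mF_det,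
      Matrix.smul_mul, Matrix.one_mul]
  have hmax : 𝔮.IsMaximal := h𝔮.isMaximal h𝔮0
  have hdom : IsDomain (𝓞 F ⧸ 𝔮) := Ideal.Quotient.isDomain 𝔮
  have hex : ∀ a : 𝓞 F, a ∉ 𝔮 → ∃ t : 𝓞 F, Ideal.Quotient.mk 𝔮 a * Ideal.Quotient.mk 𝔮 t = 1 := by
    intro a ha
    have h1 : Ideal.Quotient.mk 𝔮 a ≠ 0 := fun h => ha (Ideal.Quotient.eq_zero_iff_mem.1 h)
    obtain ⟨c, hc⟩ := Ideal.Quotient.exists_inv h1
    obtain ⟨t, rfl⟩ := Ideal.Quotient.mk_surjective c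
    exact ⟨t, hc⟩
  obtain ⟨t, ht⟩ := hex _ hδ
  have hrd : (rm 𝔮 A).det = Ideal.Quotient.mk 𝔮 A.det := ((Ideal.Quotient.mk 𝔮).map_det A).symm
  have hra : (rm 𝔮 A).adjugate = rm 𝔮 A.adjugate := ((Ideal.Quotient.mk 𝔮).map_adjugate A).symm
  have hri : (rm 𝔮 A)⁻¹ = Ideal.Quotient.mk 𝔮 t • rm 𝔮 A.adjugate := by
    apply Matrix.inv_eq_left_inv
    have ht' : Ideal.Quotient.mk 𝔮 t * Ideal.Quotient.mk 𝔮 A.det = 1 := by
      rw [mul_comm]; exact ht
    rw [Matrix.smul_mul, ← hra, Matrix.adjugate_mul, hrd, smul_smul, ht', one_smul]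
  have hro : (rm 𝔮 A)⁻¹ * rm 𝔮 B = Ideal.Quotient.mk 𝔮 t • rm 𝔮 (A.adjugate * B) := by
    rw [hri, Matrix.smul_mul]
    congr 1
    exact (Matrix.map_mul).symm
  have hmk : ∀ (M : Mt g (𝓞 F)) (v : Fin (2 * g + 1) → 𝓞 F),
      (fun i => Ideal.Quotient.mk 𝔮 (v i)) ⬝ᵥ (rm 𝔮 M *ᵥ fun i => Ideal.Quotient.mk 𝔮 (v i)) =
        Ideal.Quotient.mk 𝔮 (v ⬝ᵥ (M *ᵥ v)) := by
    intro M v
    rw [dotProduct, dotProduct, map_sum]
    refine Finset.sum_congr rfl fun i _ => ?_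
    rw [map_mul, Matrix.mulVec, Matrix.mulVec, dotProduct, dotProduct, map_sum]
    simp only [map_mul, Matrix.map_apply, rm]
  have hpow : ∀ m : ℕ, rm 𝔮 A * ((rm 𝔮 A)⁻¹ * rm 𝔮 B) ^ m =
      Ideal.Quotient.mk 𝔮 t ^ m • rm 𝔮 (A * (A.adjugate * B) ^ m) := by
    intro m
    rw [hro, _root_.smul_pow, Matrix.mul_smul]
    congr 1
    have h1 : rm 𝔮 (A * (A.adjugate * B) ^ m) = rm 𝔮 A * rm 𝔮 ((A.adjugate * B) ^ m) :=
      Matrix.map_mul
    have h2 : rm 𝔮 ((A.adjugate * B) ^ m) = rm 𝔮 (A.adjugate * B) ^ m :=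
      ((Ideal.Quotient.mk 𝔮).mapMatrix).map_pow (A.adjugate * B) m
    rw [h1, h2]
  have hmv : ∀ (M : Mt g (𝓞 F)) (v : Fin (2 * g + 1) → 𝓞 F),
      (fun i => (((M *ᵥ v) i : 𝓞 F) : F)) = mF M *ᵥ fun i => ((v i : 𝓞 F) : F) := by
    intro M v
    funext i
    change algebraMap (𝓞 F) F (∑ j, M i j * v j) =
      ∑ j, algebraMap (𝓞 F) F (M i j) * algebraMap (𝓞 F) F (v j)
    rw [map_sum]
    simp only [map_mul]
  -- the vector
  choose c hc using fun i => Ideal.Quotient.mk_surjective (ξ i)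
  obtain ⟨x, hx⟩ : ∃ x : L, x = ∑ i, c i • e i := ⟨_, rfl⟩
  have hxΛ : x ∈ Λ := by
    rw [hx]
    exact Submodule.sum_mem _ fun i _ => Λ.smul_mem _ (heΛ i)
  have hrep : (fun i => b.repr x i) = fun i => ((c i : 𝓞 F) : F) := by
    have h1 : x = ∑ i, ((c i : 𝓞 F) : F) • b i := by
      rw [hx]
      refine Finset.sum_congr rfl fun i _ => ?_
      rw [hb]
      rw [Algebra.smul_def, Algebra.smul_def, IsScalarTower.algebraMap_apply (𝓞 F) F L]
    have h2 := b.repr_sum_self (fun i => ((c i : 𝓞 F) : F))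
    rw [← h1] at h2
    exact h2
  have hstab : ∀ m : ℕ, θ ^ m * x ∈ Λ := by
    intro m
    induction m with
    | zero => rw [pow_zero, one_mul]; exact hxΛ
    | succ m ih =>
      rw [pow_succ', mul_assoc]
      exact hΛ.stab _ ih
  have hval : ∀ m : ℕ, ∃ a : 𝓞 F, (a : F) = hG.top (θ ^ m * x ^ 2 / α) := by
    intro m
    refine ⟨⟨_, hΛ.int _ (hstab m) _ hxΛ⟩, ?_⟩
    change hG.top (θ ^ m * x * x / α) = _
    rw [mul_assoc, ← sq]
  have key : ∀ m, ((c ⬝ᵥ ((A * (A.adjugate * B) ^ m) *ᵥ c) : 𝓞 F) : F) =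
      ((A.det : 𝓞 F) : F) ^ m * hG.top (θ ^ m * x ^ 2 / α) := by
    intro m
    have h1 : ((c ⬝ᵥ ((A * (A.adjugate * B) ^ m) *ᵥ c) : 𝓞 F) : F) =
        (fun i => ((c i : 𝓞 F) : F)) ⬝ᵥ
          (mF (A * (A.adjugate * B) ^ m) *ᵥ fun i => ((c i : 𝓞 F) : F)) := by
      rw [← hmv]
      change algebraMap (𝓞 F) F (∑ i, c i * ((A * (A.adjugate * B) ^ m) *ᵥ c) i) =
        ∑ i, algebraMap (𝓞 F) F (c i) *
          algebraMap (𝓞 F) F (((A * (A.adjugate * B) ^ m) *ᵥ c) i)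
      rw [map_sum]
      simp only [map_mul]
    rw [h1, ← hrep, mF_mul, mF_pow, hC, _root_.smul_pow, ← map_pow (Algebra.leftMulMatrix b) θ m, Matrix.mul_smul,
      Matrix.smul_mulVec, dotProduct_smul, form_eq hl b hb]
    simp only [smul_eq_mul]
  refine ⟨x, hxΛ, 1, fun h1 => h𝔮.ne_top ((Ideal.eq_top_iff_one _).2 h1), fun m hm => ?_⟩
  obtain ⟨a, ha⟩ := hval m
  have hk : c ⬝ᵥ ((A * (A.adjugate * B) ^ m) *ᵥ c) = A.det ^ m * a := by
    apply hinj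
    refine (key m).trans ?_
    rw [← ha, map_mul, map_pow]
  have hform := hξ m hm
  have hξc : ξ = fun i => Ideal.Quotient.mk 𝔮 (c i) := by
    funext i
    exact (hc i).symm
  rw [form, hpow, hξc, Matrix.smul_mulVec, dotProduct_smul, hmk, hk, smul_eq_mul, map_mul, map_pow,
    ← mul_assoc, ← mul_pow, mul_comm (Ideal.Quotient.mk 𝔮 t), ht, one_pow, one_mul] at hform
  refine ⟨a - (if m = 2 * g then 1 else 0), ?_, ?_⟩
  · rw [← Ideal.Quotient.eq_zero_iff_mem, map_sub, hform]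
    split_ifs <;> simp
  · rw [← ha]
    split_ifs <;> simp

end Run7.h824.DI
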