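import Pool.Agent.Run7.h245.DI.Iface
import Pool.Agent.Run7.h824.SR.TYPR
import Pool.Agent.Run7.h824.SR.REDR
import Pool.Agent.Run7.h824.SR.DISR
import Pool.Agent.Run7.h824.SR.CHIR
import Pool.Agent.Run7.h824.SR.PRX
import Pool.Agent.Run7.h711.SR.SDR
import Pool.Agent.N438.PF.LB
import Pool.Agent.N707.PF.Maj
import Pool.Agent.N482.PF.SQ
import Pool.Agent.N31.PF.Int

/-!
# Project DI (helper245), piece LBN (helper824): from the lattice to a bad polynomial, for lattices with a larger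
dual and a set of primes at which there is no distinguished vector (adapted from `LBR`)
-/

set_option autoImplicit false
set_option linter.all false

open Polynomial IsDedekindDomain Matrix NumberField
open scoped Classical

namespace Run7.h824.DI

open Pool.Agent.N783.PF
open Pool.Agent.Run7.h245.SR
open Pool.Agent.Run7.h245.DI
open Pool.Agent.N352.PJ (Mt Typ dd)
open Pool.Agent.N783.PQ (chp form Dist Gap Mid Deep eA eB eU uu)
open Pool.Agent.N438.PF (norm_le norm_pos Bd_nonneg zero_of_Bd zero_of_z irrF top_pow const_of_top int_of_sq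
  one_le_B HH_nonneg four_zpow prod_zpow2 sum_typ det_le')

/-- **LBN** -/
theorem lbn (h5 : S_CHIN) : S_LBN := by
  have h1 : S_TYPR := Run7.h824.SR.typr (Run7.h824.SR.redr Run7.h824.SR.disr) Pool.Agent.N707.PF.MAJ.maj
  have h2 : S_MAJ := Pool.Agent.N707.PF.MAJ.maj
  have h3 : S_CHIR := Run7.h824.SR.chir
  have h4 : S_SQ := Pool.Agent.N482.PF.sq
  intro g F _ _ m₀ hm₀ hg
  obtain ⟨C, hC⟩ := h1 g F m₀ hm₀
  obtain ⟨K0, hK0⟩ : ∃ K0 : ℕ, K0 =
    ((2 * g + 1).factorial * 2 ^ (2 * C * (2 * g + 1))) ^ Module.finrank ℚ F := ⟨_, rfl⟩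
  refine ⟨2 * C + 2 * g + 2 + K0, ?_⟩
  obtain ⟨κ, hκ⟩ : ∃ κ, κ = 2 * C + 2 * g + 2 + K0 := ⟨_, rfl⟩
  rw [← hκ]
  intro L _ _ _ f θ B N W S Cs 𝔮 h P hκW hS hCS hG hHt hBN hcg α Λ hα hnorm hLat hdist hns
  have hB1 : 1 ≤ B := one_le_B hg hG hHt
  have hκN : κ ≤ 2 * N := by
    have t1 : 2 ^ κ ≤ 4 ^ N := le_trans (Nat.le_mul_of_pos_right _ hB1) hBN
    rw [show (4 : ℕ) = 2 ^ 2 by norm_num, ← pow_mul] at t1
    exact (Nat.pow_le_pow_iff_right (by norm_num)).1 t1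
  have hBN1 : (B : ℝ) ≤ 4 ^ N := by
    have t1 : B ≤ 4 ^ N := le_trans (Nat.le_mul_of_pos_left _ (by positivity)) hBN
    exact_mod_cast t1
  have hB0 : (1 : ℝ) ≤ B := by exact_mod_cast hB1
  obtain ⟨e, w, heΛ, hli, hTyp, hew⟩ := hC hg B L f θ hG α Λ hHt hα hLat
  obtain ⟨A, A', hGr, sA, sA', hdet0, hchp, htr, hdet, hmod⟩ :=
    h3 g F L f θ hG m₀ α Λ e hHt.tr hα hLat heΛ hli
  obtain ⟨hmaj, hmaj2⟩ := h2 g B F L f θ hg hG hHt
  obtain ⟨x, hx0, hxd⟩ := hdet hnorm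
  -- bounds
  have bA' : ∀ i j, Bd (A i j : F) ((2 : ℝ) ^ (2 * (C : ℤ) + w i + w j)) := by
    intro i j σ
    have t1 := hmaj α hα σ 0 (e i) (e j)
    rw [pow_zero, one_mul, mul_zero, pow_zero, one_mul, ← hGr.gA] at t1
    have t2 : HH f θ α (e i) * HH f θ α (e j) ≤ ((2 : ℝ) ^ (2 * (C : ℤ) + w i + w j)) ^ 2 := by
      refine (mul_le_mul (hew i) (hew j) (HH_nonneg _ _) (by positivity)).trans (le_of_eq ?_)
      rw [← zpow_add₀ (by norm_num), ← four_zpow]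
      congr 1
      ring
    exact (sq_le_sq₀ (norm_nonneg _) (by positivity)).1 (t1.trans t2)
  have bA : ∀ i j, Bd (A i j : F) ((2 : ℝ) ^ ((κ : ℤ) + w i + w j)) := by
    intro i j σ
    refine (bA' i j σ).trans (zpow_le_zpow_right₀ (by norm_num) ?_)
    rw [hκ]
    push_cast
    have : (0 : ℤ) ≤ g := by positivity
    have : (0 : ℤ) ≤ K0 := by positivity
    linarith
  have bB : ∀ i j, Bd (A' i j : F) ((2 : ℝ) ^ (2 * (N : ℤ) + w i + w j)) := by
    intro i j σ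
    have t1 := hmaj α hα σ 1 (e i) (e j)
    rw [pow_one, mul_one, ← hGr.gB] at t1
    have t2 : (2 * B : ℝ) ^ 2 * (HH f θ α (e i) * HH f θ α (e j)) ≤
        ((2 * (B : ℝ)) * (2 : ℝ) ^ (2 * (C : ℤ) + w i + w j)) ^ 2 := by
      rw [mul_pow (2 * (B : ℝ)) _]
      refine mul_le_mul_of_nonneg_left ?_ (sq_nonneg _)
      refine (mul_le_mul (hew i) (hew j) (HH_nonneg _ _) (by positivity)).trans (le_of_eq ?_)
      rw [← zpow_add₀ (by norm_num), ← four_zpow]
      congr 1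
      ring
    have t3 := (sq_le_sq₀ (norm_nonneg _) (by positivity)).1 (t1.trans t2)
    refine t3.trans ?_
    have t4 : (2 * (B : ℝ)) * (2 : ℝ) ^ (2 * (C : ℤ)) ≤ (2 : ℝ) ^ (2 * (N : ℤ)) := by
      have t5 : 2 * B * 2 ^ (2 * C) ≤ 2 ^ (2 * N) := by
        calc 2 * B * 2 ^ (2 * C) = 2 ^ (2 * C + 1) * B := by ring
          _ ≤ 2 ^ κ * B := Nat.mul_le_mul_right _ (Nat.pow_le_pow_right (by norm_num) (by omega))
          _ ≤ 4 ^ N := hBN
          _ = 2 ^ (2 * N) := by rw [show (4 : ℕ) = 2 ^ 2 by norm_num, ← pow_mul]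
      exact_mod_cast t5
    calc 2 * (B : ℝ) * (2 : ℝ) ^ (2 * (C : ℤ) + w i + w j)
        = (2 * (B : ℝ)) * (2 : ℝ) ^ (2 * (C : ℤ)) * (2 : ℝ) ^ (w i + w j) := by
          rw [add_assoc, zpow_add₀ (by norm_num)]
          ring
      _ ≤ (2 : ℝ) ^ (2 * (N : ℤ)) * (2 : ℝ) ^ (w i + w j) :=
          mul_le_mul_of_nonneg_right t4 (by positivity)
      _ = (2 : ℝ) ^ (2 * (N : ℤ) + w i + w j) := by
          rw [add_assoc, ← zpow_add₀ (by norm_num)]
  -- the size of x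
  have hxn : Ideal.absNorm (Ideal.span {x}) ≤ K0 := by
    have t1 : Bd ((x ^ 2 : 𝓞 F) : F) (((2 * g + 1).factorial * 2 ^ (2 * C * (2 * g + 1)) : ℕ) : ℝ) := by
      intro σ
      have t2 := det_le' hTyp bA' σ
      rw [hxd] at t2
      have t3 : ‖σ (((-1) ^ g * x ^ 2 : 𝓞 F) : F)‖ = ‖σ ((x ^ 2 : 𝓞 F) : F)‖ := by
        rcases neg_one_pow_eq_or (𝓞 F) g with t4 | t4
        · rw [t4, one_mul]
        · rw [t4, neg_one_mul]
          simp
      rwa [t3] at t2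
    have t2 := norm_le _ t1
    have t3 : Ideal.absNorm (Ideal.span {x ^ 2}) ≤ K0 := by
      rw [hK0]
      exact_mod_cast t2
    refine le_trans ?_ t3
    have t4 : Ideal.span {x ^ 2} = Ideal.span {x} * Ideal.span {x} := by
      rw [Ideal.span_singleton_mul_span_singleton, sq]
    rw [t4, map_mul]
    exact Nat.le_mul_of_pos_left _ (norm_pos hx0)
  have hnp : ∀ q ∈ S, ∀ 𝔭 : Ideal (𝓞 F), 𝔭.IsPrime → (q : 𝓞 F) ∈ 𝔭 → A.det ∉ 𝔭 := by
    intro q hq 𝔭 hp hqp hcon'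
    obtain ⟨hqP, hWq, -⟩ := hS q hq
    rw [hxd] at hcon'
    have hxp : x ∈ 𝔭 := by
      rcases hp.mem_or_mem hcon' with t | t
      · exfalso
        apply hp.ne_top
        rw [Ideal.eq_top_iff_one]
        have t2 := 𝔭.mul_mem_left ((-1) ^ g) t
        rwa [← mul_pow, neg_one_mul, neg_neg, one_pow] at t2
      · exact hp.mem_of_pow_mem 2 t
    have hap : ((Ideal.absNorm (Ideal.span {x}) : ℕ) : 𝓞 F) ∈ 𝔭 :=
      (Ideal.span_singleton_le_iff_mem 𝔭).2 hxp (Ideal.absNorm_mem _)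
    have hqa : q ∣ Ideal.absNorm (Ideal.span {x}) := by
      by_contra t
      have t1 : IsCoprime (q : ℤ) (Ideal.absNorm (Ideal.span {x}) : ℤ) :=
        Nat.isCoprime_iff_coprime.2 ((Nat.Prime.coprime_iff_not_dvd hqP).2 t)
      obtain ⟨a, b, hab⟩ := t1
      apply hp.ne_top
      rw [Ideal.eq_top_iff_one]
      have t2 : (1 : 𝓞 F) = (a : 𝓞 F) * (q : 𝓞 F) +
          (b : 𝓞 F) * ((Ideal.absNorm (Ideal.span {x}) : ℕ) : 𝓞 F) := by
        have := congrArg (fun z : ℤ => (z : 𝓞 F)) hab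
        push_cast at this
        exact this.symm
      rw [t2]
      exact 𝔭.add_mem (𝔭.mul_mem_left _ hqp) (𝔭.mul_mem_left _ hap)
    have t1 := Nat.le_of_dvd (norm_pos hx0) hqa
    omega
  have hnb : ∀ q ∈ S, ∀ 𝔭 : Ideal (𝓞 F), (q : 𝓞 F) ∈ 𝔭 → 𝔭 ≠ ⊥ := by
    intro q hq 𝔭 hqp hb
    rw [hb, Ideal.mem_bot] at hqp
    have : (q : 𝓞 F) ≠ 0 := Nat.cast_ne_zero.2 (hS q hq).1.ne_zero
    exact this hqp
  -- the type
  refine ⟨irrF hG, w, hTyp, ?_, ?_, A, A', ⟨⟨sA, sA', ⟨x, hx0, hxd, ?_⟩, htr, bA, bB⟩, ?_, ?_⟩,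
    hchp⟩
  · -- gaps
    intro i j hij
    by_contra hcon'
    push Not at hcon'
    have hi : (i : ℕ) + 1 < 2 * g + 1 := by
      rw [← hij]
      exact j.2
    obtain ⟨a, ha, b, hb, hab⟩ := Pool.Agent.N530.PQ.gap g F (mF A) (mF A')
      (by
        have := congrArg (fun M : Mt g (𝓞 F) => M.map (algebraMap (𝓞 F) F)) sA
        simpa [Matrix.IsSymm, Matrix.transpose_map] using this)
      (by
        have := congrArg (fun M : Mt g (𝓞 F) => M.map (algebraMap (𝓞 F) F)) sA'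
        simpa [Matrix.IsSymm, Matrix.transpose_map] using this)
      (by
        have t : (mF A).det = algebraMap (𝓞 F) F A.det := (RingHom.map_det _ _).symm
        rw [t]
        intro t0
        apply hdet0
        exact (map_eq_zero_iff _ (FaithfulSMul.algebraMap_injective (𝓞 F) F)).1 t0)
      (by rw [hchp]; exact irrF hG)
      i ⟨2 * g - 1 - i, by omega⟩ (by simp only; omega)
    have t2 := hTyp.mono ha
    have t3 := hTyp.mono hb
    have t4 : (⟨2 * g - 1 - i, by omega⟩ : Fin (2 * g + 1)) = Fin.rev j := by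
      apply Fin.ext
      rw [Fin.val_rev]
      simp only
      omega
    rw [t4, hTyp.anti] at t3
    have z1 : A a b = 0 := zero_of_z (bA a b) (by
      have : (κ : ℤ) ≤ 2 * N := by exact_mod_cast hκN
      linarith)
    have z2 : A' a b = 0 := zero_of_z (bB a b) (by linarith)
    rcases hab with hab | hab
    · apply hab
      change algebraMap (𝓞 F) F (A a b) = 0
      rw [z1, map_zero]
    · apply hab
      change algebraMap (𝓞 F) F (A' a b) = 0
      rw [z2, map_zero]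
  · -- the middle gap
    left
    intro i hi
    by_contra hcon'
    push Not at hcon'
    apply hns
    have hz : ∀ a b : Fin (2 * g + 1), (a : ℕ) < g → (b : ℕ) < g → A a b = 0 ∧ A' a b = 0 := by
      intro a b ha hb
      have t2 := hTyp.mono (show a ≤ i from Fin.le_def.2 (by omega))
      have t3 := hTyp.mono (show b ≤ i from Fin.le_def.2 (by omega))
      constructor
      · exact zero_of_z (bA a b) (by
          have : (κ : ℤ) ≤ 2 * N := by exact_mod_cast hκN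
          linarith)
      · exact zero_of_z (bB a b) (by linarith)
    refine h4 g F L f θ hg hG α e hα hli ?_ ?_ hnorm
    · intro a b ha hb
      rw [← hGr.gA, (hz a b ha hb).1]
      exact map_zero (algebraMap (𝓞 F) F)
    · intro a b ha hb
      rw [← hGr.gB, (hz a b ha hb).2]
      exact map_zero (algebraMap (𝓞 F) F)
  · -- the norm of x
    refine hxn.trans ?_
    calc K0 ≤ κ := by omega
      _ ≤ 2 ^ κ := Nat.lt_two_pow_self.le
  · -- congruences
    intro q hq 𝔭 hp hqp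
    rw [(hmod 𝔭 hp (hnb q hq 𝔭 hqp) (hnp q hq 𝔭 hp hqp)).1]
    ext1
    rename_i j
    rw [rd, rd, coeff_map, coeff_map, Ideal.Quotient.mk_eq_mk_iff_sub_mem]
    exact (Ideal.span_singleton_le_iff_mem 𝔭).2 hqp (hcg q hq j)
  · -- not distinguished
    intro q hq hd
    obtain ⟨-, -, -, -, -, hp, hqp, -⟩ := hS q (hCS hq)
    exact hdist q hq (h5 g F L f θ hG m₀ α Λ e hHt.tr hα hLat heΛ hli A A' hGr (𝔮 q) hp (hnb q (hCS hq) _ hqp)
      (hnp q (hCS hq) _ hp hqp) hd)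

/-- **PRN** -/
theorem prn (h2 : S_TVN) (h3 : S_LBN) : S_PRN := by
  have h1 : S_SDR := Pool.Agent.Run7.h711.SR.sdr Pool.Agent.N31.PF.int
  intro g F _ _ m₀ hm₀ hg
  obtain ⟨κ, hκ⟩ := h3 g F m₀ hm₀ hg
  refine ⟨κ, fun L _ _ _ f θ B N W S C 𝔮 h P hκW hS hCS hc hsq hHt hBN hcon α hα hN hns hev hevC hsq1 => ?_⟩
  have hcg := Run7.h824.SR.cg_con hS hcon
  obtain ⟨Λ, hΛ, hL⟩ := h1 g F L f θ hc hsq m₀ α hm₀ hα hev
  refine hκ L f θ B N W S C 𝔮 h P hκW hS hCS hc hHt hBN hcon α Λ hα hN hL ?_ hns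
  intro q hq hv
  obtain ⟨hb, hs⟩ := Pool.Agent.N771.PF.sep_q hg hS (hCS hq) (hcg q (hCS hq))
  obtain ⟨𝔓, h𝔓, hns1⟩ := hsq1 q hq
  exact hns1 (h2 g F L f θ hc hsq m₀ α Λ hα hΛ hL (𝔮 q) (hS q (hCS hq)).2.2.2.2.2.1 hb hv 𝔓 h𝔓)

end Run7.h824.DI
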